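import Pool.Agent.Helper23.GK.StF

/-!
# Project GK, module TUP: every tuple of blocks is small in mean square
-/

set_option autoImplicit false

namespace Pool.Agent.Helper42.GK

open Pool.Agent.Helper23.GK
open Finset ArithmeticFunction MeasureTheory
open Pool.Agent.Helper2.MR (ch)

/-- the coefficients of the four block polynomials -/
noncomputable def tupCf {q : ℕ} (χ : DirichletCharacter ℂ q) : Fin 4 → ℕ → ℂ :=
  ![cmu χ, cmu χ, clog χ, cone χ]

theorem tup_cont_AA (a : ℕ → ℂ) (e : ℕ) : Continuous (fun t : ℝ => AA a e t) := by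
  unfold AA ch
  fun_prop

theorem tup_cont_PP {q : ℕ} (χ : DirichletCharacter ℂ q) (e : Fin 4 → ℕ) :
    Continuous (fun t : ℝ => PP χ e t) := by
  unfold PP
  have h1 := tup_cont_AA (cmu χ) (e 0)
  have h2 := tup_cont_AA (cmu χ) (e 1)
  have h3 := tup_cont_AA (clog χ) (e 2)
  have h4 := tup_cont_AA (cone χ) (e 3)
  exact ((h1.mul h2).mul h3).mul h4

theorem tup_PP {q : ℕ} (χ : DirichletCharacter ℂ q) (e : Fin 4 → ℕ) (t : ℝ) :
    ‖PP χ e t‖ ^ 2 = ∏ i, ‖AA (tupCf χ i) (e i) t‖ ^ 2 := by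
  simp [PP, tupCf, Fin.prod_univ_four, mul_pow]

theorem tup_chi {q : ℕ} (χ : DirichletCharacter ℂ q) (n : ℕ) : ‖χ (n : ZMod q)‖ ≤ 1 :=
  DirichletCharacter.norm_le_one χ _

theorem tup_cmu {q : ℕ} (χ : DirichletCharacter ℂ q) (n : ℕ) : ‖cmu χ n‖ ≤ 1 := by
  unfold cmu
  rw [norm_mul]
  have h1 : ‖((moebius n : ℤ) : ℂ)‖ ≤ 1 := by
    rw [Complex.norm_intCast]
    exact_mod_cast ArithmeticFunction.abs_moebius_le_one
  have h2 := tup_chi χ n
  calc _ ≤ 1 * (1 : ℝ) := by gcongr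
    _ = 1 := by norm_num

theorem tup_mem {e n : ℕ} (h : n ∈ blk2 e) : 1 ≤ n ∧ n ≤ 2 ^ e := by
  unfold blk2 at h
  split_ifs at h with h0
  · simp at h
    subst h
    exact ⟨le_refl _, Nat.one_le_two_pow⟩
  · rw [mem_Ioc] at h
    exact ⟨lt_of_le_of_lt (Nat.zero_le _) h.1, h.2⟩

theorem tup_clog {q : ℕ} (χ : DirichletCharacter ℂ q) {e n : ℕ} (h : n ∈ blk2 e) :
    ‖clog χ n‖ ≤ e := by
  obtain ⟨h1, h2⟩ := tup_mem h
  unfold clog
  rw [norm_mul, Complex.norm_real, Real.norm_eq_abs]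
  have h3 := tup_chi χ n
  have h4 : 0 ≤ Real.log n := Real.log_natCast_nonneg n
  have h5 : Real.log n ≤ e := by
    have : Real.log n ≤ Real.log ((2 : ℝ) ^ e) := by
      apply Real.log_le_log (by exact_mod_cast h1)
      exact_mod_cast h2
    rw [Real.log_pow] at this
    have h6 : Real.log 2 ≤ 1 := by
      have := Real.log_two_lt_d9
      linarith
    calc _ ≤ (e : ℝ) * Real.log 2 := this
      _ ≤ (e : ℝ) * 1 := by gcongr
      _ = e := mul_one _
  rw [abs_of_nonneg h4]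
  calc _ ≤ 1 * (e : ℝ) := by gcongr
    _ = e := one_mul _

theorem tup_cf_le {q : ℕ} (χ : DirichletCharacter ℂ q) (e : Fin 4 → ℕ) (i : Fin 4) (n : ℕ)
    (hn : n ∈ blk2 (e i)) : ‖tupCf χ i n‖ ≤ 1 + ∑ i, (e i : ℝ) := by
  have hs : ∀ j : Fin 4, (e j : ℝ) ≤ ∑ i, (e i : ℝ) := fun j =>
    Finset.single_le_sum (f := fun i => (e i : ℝ)) (fun i _ => Nat.cast_nonneg _) (mem_univ j)
  have h0 : (0 : ℝ) ≤ ∑ i, (e i : ℝ) := Finset.sum_nonneg (fun i _ => Nat.cast_nonneg _)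
  fin_cases i
  · have := tup_cmu χ n
    simp only [tupCf]
    exact this.trans (by linarith)
  · have := tup_cmu χ n
    simp only [tupCf]
    exact this.trans (by linarith)
  · have := tup_clog χ hn
    simp only [tupCf]
    have h2 := hs 2
    exact this.trans (by simpa using by linarith)
  · have := tup_chi χ n
    simp only [tupCf]
    exact this.trans (by linarith)

/-- the set of integration -/
def tupR (a T : ℝ) : Set ℝ := {t : ℝ | a ≤ |t| ∧ |t| ≤ T}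

theorem tupR_meas (a T : ℝ) : MeasurableSet (tupR a T) := by
  apply IsClosed.measurableSet
  apply IsClosed.inter
  · exact isClosed_le continuous_const continuous_abs
  · exact isClosed_le continuous_abs continuous_const

theorem tupR_sub (a T : ℝ) : tupR a T ⊆ Set.Icc (-T) T := fun _ ht => abs_le.mp ht.2

theorem tup_int (f : ℝ → ℝ) (hf : Continuous f) (a T : ℝ) : IntegrableOn f (tupR a T) :=
  (hf.continuousOn.integrableOn_compact isCompact_Icc).mono_set (tupR_sub a T)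

theorem tup_le_int (f : ℝ → ℝ) (hf : Continuous f) (h0 : ∀ t, 0 ≤ f t) (a T : ℝ) (hT : 0 ≤ T) :
    ∫ t in tupR a T, f t ≤ ∫ t in (-T)..T, f t := by
  rw [intervalIntegral.integral_of_le (by linarith), ← integral_Icc_eq_integral_Ioc]
  apply setIntegral_mono_set
  · exact hf.continuousOn.integrableOn_compact isCompact_Icc
  · exact Filter.Eventually.of_forall h0
  · exact (tupR_sub a T).eventuallyLE

theorem tup_inv_sq (a T : ℝ) (ha : 0 < a) :
    IntegrableOn (fun t : ℝ => 1 / t ^ 2) (tupR a T) ∧ ∫ t in tupR a T, 1 / t ^ 2 ≤ 8 / a := by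
  have h1 : Integrable (fun t : ℝ => 2 / a ^ 2 * (1 + (t / a) ^ 2)⁻¹) := by
    have := integrable_inv_one_add_sq.comp_div ha.ne'
    exact this.const_mul _
  have h2 : ∀ t ∈ tupR a T, 1 / t ^ 2 ≤ 2 / a ^ 2 * (1 + (t / a) ^ 2)⁻¹ := by
    intro t ht
    have h3 : a ^ 2 ≤ t ^ 2 := by
      rw [← sq_abs t]
      exact pow_le_pow_left₀ ha.le ht.1 2
    have h4 : 0 < t ^ 2 := lt_of_lt_of_le (by positivity) h3
    have h5 : 2 / a ^ 2 * (1 + (t / a) ^ 2)⁻¹ = 2 / (a ^ 2 + t ^ 2) := by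
      field_simp
    rw [h5, div_le_div_iff₀ h4 (by positivity)]
    linarith
  have h6 : IntegrableOn (fun t : ℝ => 1 / t ^ 2) (tupR a T) := by
    apply Integrable.mono' h1.integrableOn
    · exact (measurable_const.div (measurable_id.pow_const 2)).aestronglyMeasurable
    · rw [ae_restrict_iff' (tupR_meas a T)]
      refine Filter.Eventually.of_forall (fun t ht => ?_)
      rw [Real.norm_of_nonneg (by positivity)]
      exact h2 t ht
  refine ⟨h6, ?_⟩
  calc ∫ t in tupR a T, 1 / t ^ 2 ≤ ∫ t in tupR a T, 2 / a ^ 2 * (1 + (t / a) ^ 2)⁻¹ :=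
        setIntegral_mono_on h6 h1.integrableOn (tupR_meas a T) h2
    _ ≤ ∫ t : ℝ, 2 / a ^ 2 * (1 + (t / a) ^ 2)⁻¹ := by
        apply setIntegral_le_integral h1
        exact Filter.Eventually.of_forall (fun t => by positivity)
    _ = 2 / a ^ 2 * (a * Real.pi) := by
        rw [integral_const_mul]
        congr 1
        have := Measure.integral_comp_div (fun x : ℝ => (1 + x ^ 2)⁻¹) a
        rw [this, integral_univ_inv_one_add_sq, abs_of_pos ha, smul_eq_mul]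
    _ ≤ 8 / a := by
        have := Real.pi_le_four
        have h7 : 2 / a ^ 2 * (a * Real.pi) = 2 * Real.pi / a := by
          field_simp
        rw [h7]
        gcongr
        linarith

/-- mean value of the product of the three other polynomials -/
theorem tup_mean {C : ℕ} (hC : ∀ (a : Fin 4 → ℕ → ℂ) (e : Fin 4 → ℕ) (S : Finset (Fin 4)) (K T : ℝ),
    1 ≤ T → 1 ≤ K → (∀ i, ∀ n ∈ blk2 (e i), ‖a i n‖ ≤ K) →
    ∫ t in (-T)..T, ∏ i ∈ S, ‖AA (a i) (e i) t‖ ^ 2 ≤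
    C * K ^ 8 * (T / 2 ^ (∑ i ∈ S, e i) + 1) * (1 + ∑ i ∈ S, (e i : ℝ)) ^ C)
    {q : ℕ} (χ : DirichletCharacter ℂ q) (e : Fin 4 → ℕ) (i0 : Fin 4) (X : ℕ) (hX : 1 ≤ X) (L T : ℝ)
    (hT : 1 ≤ T) (hL1 : 1 ≤ L) (hL : 1 + ∑ i, (e i : ℝ) ≤ L ^ 2) (hCL : (C : ℝ) ≤ L)
    (hs : X ≤ 2 ^ (∑ i, e i)) :
    ∫ t in (-T)..T, ∏ i ∈ univ.erase i0, ‖AA (tupCf χ i) (e i) t‖ ^ 2 ≤
      L ^ (17 + 2 * C) * (T * 2 ^ (e i0) / X + 1) := by
  have h0 : (0 : ℝ) ≤ ∑ i, (e i : ℝ) := Finset.sum_nonneg (fun i _ => Nat.cast_nonneg _)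
  have hX0 : (0 : ℝ) < X := by exact_mod_cast hX
  have hm := hC (tupCf χ) e (univ.erase i0) (1 + ∑ i, (e i : ℝ)) T hT (by linarith)
    (fun i n hn => tup_cf_le χ e i n hn)
  refine hm.trans ?_
  have h1 : (∑ i ∈ univ.erase i0, e i) + e i0 = ∑ i, e i := Finset.sum_erase_add _ _ (mem_univ i0)
  have h2 : T / 2 ^ (∑ i ∈ univ.erase i0, e i) ≤ T * 2 ^ (e i0) / X := by
    rw [div_le_div_iff₀ (by positivity) hX0, mul_assoc, ← pow_add, add_comm (e i0), h1]
    have : (X : ℝ) ≤ 2 ^ (∑ i, e i) := by exact_mod_cast hs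
    gcongr
  have h3 : 1 + ∑ i ∈ univ.erase i0, (e i : ℝ) ≤ 1 + ∑ i, (e i : ℝ) := by
    gcongr
    exact Finset.subset_univ _
  have h4 : (0 : ℝ) ≤ ∑ i ∈ univ.erase i0, (e i : ℝ) :=
    Finset.sum_nonneg (fun i _ => Nat.cast_nonneg _)
  have hT0 : 0 ≤ T := by linarith
  calc (C : ℝ) * (1 + ∑ i, (e i : ℝ)) ^ 8 * (T / 2 ^ (∑ i ∈ univ.erase i0, e i) + 1) *
        (1 + ∑ i ∈ univ.erase i0, (e i : ℝ)) ^ C
      ≤ L * (L ^ 2) ^ 8 * (T * 2 ^ (e i0) / X + 1) * (L ^ 2) ^ C := by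
        gcongr
        exact h3.trans hL
    _ = L ^ (17 + 2 * C) * (T * 2 ^ (e i0) / X + 1) := by
        rw [← pow_mul, ← pow_mul]
        ring

/-- the case of a small sup norm -/
theorem tup_sup {q : ℕ} (χ : DirichletCharacter ℂ q) (e : Fin 4 → ℕ) (i0 : Fin 4) (a T δ M : ℝ)
    (hT : 0 ≤ T) (hδ : ∀ t, a ≤ |t| → |t| ≤ T → ‖AA (tupCf χ i0) (e i0) t‖ ≤ δ)
    (hM : ∫ t in (-T)..T, ∏ i ∈ univ.erase i0, ‖AA (tupCf χ i) (e i) t‖ ^ 2 ≤ M) :
    ∫ t in tupR a T, ‖PP χ e t‖ ^ 2 ≤ δ ^ 2 * M := by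
  have hc : Continuous (fun t : ℝ => ∏ i ∈ univ.erase i0, ‖AA (tupCf χ i) (e i) t‖ ^ 2) := by
    apply continuous_finsetProd
    intro i _
    exact (tup_cont_AA _ _).norm.pow 2
  have hn : ∀ t : ℝ, 0 ≤ ∏ i ∈ univ.erase i0, ‖AA (tupCf χ i) (e i) t‖ ^ 2 := fun t =>
    Finset.prod_nonneg (fun i _ => by positivity)
  calc ∫ t in tupR a T, ‖PP χ e t‖ ^ 2
      ≤ ∫ t in tupR a T, δ ^ 2 * ∏ i ∈ univ.erase i0, ‖AA (tupCf χ i) (e i) t‖ ^ 2 := by
        apply setIntegral_mono_on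
        · exact tup_int _ ((tup_cont_PP χ e).norm.pow 2) a T
        · exact tup_int _ (continuous_const.mul hc) a T
        · exact tupR_meas a T
        · intro t ht
          rw [tup_PP, ← Finset.mul_prod_erase univ _ (mem_univ i0)]
          have h1 := hδ t ht.1 ht.2
          have h2 := hn t
          gcongr
    _ = δ ^ 2 * ∫ t in tupR a T, ∏ i ∈ univ.erase i0, ‖AA (tupCf χ i) (e i) t‖ ^ 2 := by
        rw [integral_const_mul]
    _ ≤ δ ^ 2 * M := by
        gcongr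
        exact (tup_le_int _ hc hn a T hT).trans hM

/-- the case of a long smooth block -/
theorem tup_long {q : ℕ} (χ : DirichletCharacter ℂ q) (e : Fin 4 → ℕ) (i0 : Fin 4)
    (a T Q Y W M : ℝ) (ha : 0 < a) (hT : 0 ≤ T) (hQ : 0 ≤ Q) (hY : 0 < Y) (hW0 : 0 ≤ W)
    (hδ : ∀ t, a ≤ |t| → |t| ≤ T → ‖AA (tupCf χ i0) (e i0) t‖ ≤ Q * (1 / |t| + |t| / Y))
    (hW : ∀ t, ∏ i ∈ univ.erase i0, ‖AA (tupCf χ i) (e i) t‖ ^ 2 ≤ W)
    (hM : ∫ t in (-T)..T, ∏ i ∈ univ.erase i0, ‖AA (tupCf χ i) (e i) t‖ ^ 2 ≤ M) :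
    ∫ t in tupR a T, ‖PP χ e t‖ ^ 2 ≤ 2 * Q ^ 2 * W * (8 / a) + 2 * Q ^ 2 * (T / Y) ^ 2 * M := by
  have hc : Continuous (fun t : ℝ => ∏ i ∈ univ.erase i0, ‖AA (tupCf χ i) (e i) t‖ ^ 2) := by
    apply continuous_finsetProd
    intro i _
    exact (tup_cont_AA _ _).norm.pow 2
  have hn : ∀ t : ℝ, 0 ≤ ∏ i ∈ univ.erase i0, ‖AA (tupCf χ i) (e i) t‖ ^ 2 := fun t =>
    Finset.prod_nonneg (fun i _ => by positivity)
  obtain ⟨hi, hi2⟩ := tup_inv_sq a T ha
  have hI1 : IntegrableOn (fun t : ℝ => 2 * Q ^ 2 * W * (1 / t ^ 2)) (tupR a T) :=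
    hi.const_mul _
  have hI2 : IntegrableOn (fun t : ℝ => 2 * Q ^ 2 * (T / Y) ^ 2 *
      ∏ i ∈ univ.erase i0, ‖AA (tupCf χ i) (e i) t‖ ^ 2) (tupR a T) :=
    tup_int _ (continuous_const.mul hc) a T
  calc ∫ t in tupR a T, ‖PP χ e t‖ ^ 2
      ≤ ∫ t in tupR a T, (2 * Q ^ 2 * W * (1 / t ^ 2) + 2 * Q ^ 2 * (T / Y) ^ 2 *
          ∏ i ∈ univ.erase i0, ‖AA (tupCf χ i) (e i) t‖ ^ 2) := by
        apply setIntegral_mono_on
        · exact tup_int _ ((tup_cont_PP χ e).norm.pow 2) a T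
        · exact hI1.add hI2
        · exact tupR_meas a T
        · intro t ht
          rw [tup_PP, ← Finset.mul_prod_erase univ _ (mem_univ i0)]
          have h1 := hδ t ht.1 ht.2
          have h2 := hn t
          have h3 := hW t
          have ht0 : 0 < |t| := lt_of_lt_of_le ha ht.1
          have h4 : ‖AA (tupCf χ i0) (e i0) t‖ ^ 2 ≤
              2 * Q ^ 2 * (1 / t ^ 2) + 2 * Q ^ 2 * (T / Y) ^ 2 := by
            have h5 : |t| / Y ≤ T / Y := by
              gcongr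
              exact ht.2
            have h6 : ‖AA (tupCf χ i0) (e i0) t‖ ≤ Q * (1 / |t| + T / Y) := by
              refine h1.trans ?_
              gcongr
            calc _ ≤ (Q * (1 / |t| + T / Y)) ^ 2 := by gcongr
              _ = Q ^ 2 * (1 / |t| + T / Y) ^ 2 := by ring
              _ ≤ Q ^ 2 * (2 * (1 / |t|) ^ 2 + 2 * (T / Y) ^ 2) := by
                  gcongr
                  nlinarith [sq_nonneg (1 / |t| - T / Y)]
              _ = 2 * Q ^ 2 * (1 / t ^ 2) + 2 * Q ^ 2 * (T / Y) ^ 2 := by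
                  rw [div_pow, sq_abs]
                  ring
          calc _ ≤ (2 * Q ^ 2 * (1 / t ^ 2) + 2 * Q ^ 2 * (T / Y) ^ 2) *
                ∏ i ∈ univ.erase i0, ‖AA (tupCf χ i) (e i) t‖ ^ 2 := by gcongr
            _ = 2 * Q ^ 2 * (1 / t ^ 2) * ∏ i ∈ univ.erase i0, ‖AA (tupCf χ i) (e i) t‖ ^ 2 +
                2 * Q ^ 2 * (T / Y) ^ 2 *
                  ∏ i ∈ univ.erase i0, ‖AA (tupCf χ i) (e i) t‖ ^ 2 := by ring
            _ ≤ 2 * Q ^ 2 * (1 / t ^ 2) * W + 2 * Q ^ 2 * (T / Y) ^ 2 *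
                  ∏ i ∈ univ.erase i0, ‖AA (tupCf χ i) (e i) t‖ ^ 2 := by gcongr
            _ = _ := by ring
    _ = 2 * Q ^ 2 * W * (∫ t in tupR a T, 1 / t ^ 2) + 2 * Q ^ 2 * (T / Y) ^ 2 *
          ∫ t in tupR a T, ∏ i ∈ univ.erase i0, ‖AA (tupCf χ i) (e i) t‖ ^ 2 := by
        rw [integral_add hI1 hI2, integral_const_mul, integral_const_mul]
    _ ≤ 2 * Q ^ 2 * W * (8 / a) + 2 * Q ^ 2 * (T / Y) ^ 2 * M := by
        gcongr
        exact (tup_le_int _ hc hn a T hT).trans hM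


/-- largeness conditions -/
theorem tup_large (B1 D : ℕ) (K c : ℝ) (hc : 0 < c) : ∃ X0 : ℕ, ∀ X : ℕ, X0 ≤ X →
    K ≤ Real.log X ∧ 2 * √X * Real.log X ^ D ≤ X ∧ (X : ℝ) ^ (-c) ≤ 1 / Real.log X ^ B1 ∧ 64 ≤ X := by
  have hl : Filter.Tendsto (fun X : ℕ => Real.log (X : ℝ)) Filter.atTop Filter.atTop :=
    Real.tendsto_log_atTop.comp tendsto_natCast_atTop_atTop
  have e1 : ∀ᶠ X : ℕ in Filter.atTop, K ≤ Real.log X := hl.eventually_ge_atTop K
  have e1' : ∀ᶠ X : ℕ in Filter.atTop, 1 ≤ Real.log X := hl.eventually_ge_atTop 1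
  have e2 : ∀ᶠ X : ℕ in Filter.atTop, Real.log X ^ D ≤ (1 / 2) * (X : ℝ) ^ (1 / 2 : ℝ) := by
    have h := (isLittleO_log_rpow_rpow_atTop (D : ℝ) (show (0 : ℝ) < 1 / 2 by norm_num)).bound
      (show (0 : ℝ) < 1 / 2 by norm_num)
    have h2 := (tendsto_natCast_atTop_atTop (R := ℝ)).eventually h
    filter_upwards [h2, e1'] with X hX h1
    rw [Real.rpow_natCast, Real.norm_of_nonneg (by positivity),
      Real.norm_of_nonneg (by positivity)] at hX
    exact hX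
  have e3 : ∀ᶠ X : ℕ in Filter.atTop, Real.log X ^ B1 ≤ (X : ℝ) ^ c := by
    have h := (isLittleO_log_rpow_rpow_atTop (B1 : ℝ) hc).bound (show (0 : ℝ) < 1 by norm_num)
    have h2 := (tendsto_natCast_atTop_atTop (R := ℝ)).eventually h
    filter_upwards [h2, e1'] with X hX h1
    rw [Real.rpow_natCast, Real.norm_of_nonneg (by positivity),
      Real.norm_of_nonneg (by positivity), one_mul] at hX
    exact hX
  obtain ⟨X0, h0⟩ := Filter.eventually_atTop.mp (((e1.and e1').and e2).and (e3.and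
    (Filter.eventually_ge_atTop 64)))
  refine ⟨X0, fun X hX => ?_⟩
  obtain ⟨⟨⟨h1, h1'⟩, h2⟩, h3, h4⟩ := h0 X hX
  refine ⟨h1, ?_, ?_, h4⟩
  · rw [← Real.sqrt_eq_rpow] at h2
    have h5 : (0 : ℝ) ≤ √X := Real.sqrt_nonneg _
    have h6 : √(X : ℝ) * √X = X := Real.mul_self_sqrt (Nat.cast_nonneg _)
    calc 2 * √X * Real.log X ^ D ≤ 2 * √X * ((1 / 2) * √X) := by gcongr
      _ = √X * √X := by ring
      _ = X := h6
      _ ≤ X := le_refl _
  · have h5 : (0 : ℝ) < Real.log X ^ B1 := by positivity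
    rw [Real.rpow_neg (Nat.cast_nonneg _), inv_eq_one_div]
    exact one_div_le_one_div_of_le h5 h3

theorem tup_pow {L : ℝ} (hL : 1 ≤ L) {m n A : ℕ} (h : m + A ≤ n) : L ^ m / L ^ n ≤ 1 / L ^ A := by
  rw [div_le_div_iff₀ (by positivity) (by positivity), ← pow_add, one_mul]
  exact pow_le_pow_right₀ hL h

theorem tup_half {L : ℝ} (hL : 2 ≤ L) {m n A : ℕ} (h : m + (A + 1) ≤ n) :
    L ^ m / L ^ n ≤ 1 / L ^ A / 2 := by
  have h1 := tup_pow (by linarith : 1 ≤ L) h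
  refine h1.trans ?_
  rw [pow_succ, div_div]
  have : 0 < L ^ A := by positivity
  gcongr

theorem hTUP (hMea : StMea) (hSu0 : StSu0) (hSu1 : StSu1) (hSu2 : StSu2) (hSu3 : StSu3) :
    StTup := by
  intro A B D
  obtain ⟨C, hC⟩ := hMea
  obtain ⟨C2, c, hC2, hc, X2, h2⟩ := hSu2
  obtain ⟨C3, hC3, h3⟩ := hSu3
  obtain ⟨D', hD'⟩ : ∃ D' : ℕ, D' = A + 2 * B + 3 * D + 2 * C + 40 := ⟨_, rfl⟩
  obtain ⟨A1, hA1⟩ : ∃ A1 : ℕ, A1 = A + (17 + 2 * C) + D + D' + 10 := ⟨_, rfl⟩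
  obtain ⟨B1', X1, h1⟩ := hSu1 A1 B
  obtain ⟨B1, hB1⟩ : ∃ B1 : ℕ, B1 = B1' + 1 + A + 2 * B + (17 + 2 * C) + D + D' + 40 := ⟨_, rfl⟩
  obtain ⟨X3, hX3⟩ := tup_large B1 D (9 + C + C2 + C3) c hc
  refine ⟨B1, X1 + X2 + X3, ?_⟩
  intro X hX q _ χ e hq he0 he1 hs1 hs2
  obtain ⟨hL0, hTX, hXc, hX64⟩ := hX3 X (by omega)
  set L := Real.log X with hLdef
  have hCn : (0 : ℝ) ≤ C := Nat.cast_nonneg _
  have hL9 : 9 ≤ L := by linarith
  have hL1 : 1 ≤ L := by linarith
  have hLC : (C : ℝ) ≤ L := by linarith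
  have hLC2 : C2 ≤ L := by linarith
  have hLC3 : C3 ≤ L := by linarith
  have hXp : (0 : ℝ) < X := by
    have : (64 : ℝ) ≤ X := by exact_mod_cast hX64
    linarith
  have hsq : √(X : ℝ) * √X = X := Real.mul_self_sqrt (Nat.cast_nonneg _)
  have hsq1 : 1 ≤ √(X : ℝ) := by
    rw [Real.one_le_sqrt]
    have : (64 : ℝ) ≤ X := by exact_mod_cast hX64
    linarith
  have hq1 : (1 : ℝ) ≤ q := by exact_mod_cast (Nat.pos_of_ne_zero (NeZero.ne q))
  have hsum : 1 + ∑ i, (e i : ℝ) ≤ L ^ 2 := by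
    have ha : ((2 : ℝ) ^ (∑ i, e i)) ≤ 64 * X := by exact_mod_cast hs2
    have hb := Real.log_le_log (by positivity) ha
    rw [Real.log_pow, Real.log_mul (by norm_num) hXp.ne'] at hb
    have hc6 : Real.log 64 = 6 * Real.log 2 := by
      rw [show (64 : ℝ) = 2 ^ 6 by norm_num, Real.log_pow]
      norm_num
    rw [hc6] at hb
    have hd := Real.log_two_gt_d9
    have he := Real.log_two_lt_d9
    push_cast at hb
    have hn : (0 : ℝ) ≤ ∑ i, (e i : ℝ) := Finset.sum_nonneg (fun i _ => Nat.cast_nonneg _)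
    have hf : (0.69 : ℝ) * ∑ i, (e i : ℝ) ≤ (∑ i, (e i : ℝ)) * Real.log 2 := by
      rw [mul_comm]
      gcongr
      linarith
    nlinarith
  have hei : ∀ i, 1 + (e i : ℝ) ≤ L ^ 2 := fun i => by
    have := Finset.single_le_sum (f := fun i => (e i : ℝ)) (fun i _ => Nat.cast_nonneg _)
      (mem_univ i)
    linarith
  obtain ⟨i0, -, hi0⟩ := Finset.exists_max_image univ e ⟨0, mem_univ 0⟩
  set Y : ℝ := 2 ^ (e i0) with hY
  have hY1 : 1 ≤ Y := one_le_pow₀ (by norm_num)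
  have hY0 : 0 < Y := by linarith
  have hY4 : (X : ℝ) ≤ Y ^ 4 := by
    have ha : ∑ i, e i ≤ e i0 * 4 := by
      have hb : ∑ i, e i ≤ #(univ : Finset (Fin 4)) • e i0 :=
        Finset.sum_le_card_nsmul univ e (e i0) (fun i hi => hi0 i hi)
      rw [Finset.card_univ, Fintype.card_fin, smul_eq_mul] at hb
      omega
    calc (X : ℝ) ≤ 2 ^ (∑ i, e i) := by exact_mod_cast hs1
      _ ≤ 2 ^ (e i0 * 4) := pow_le_pow_right₀ (by norm_num) ha
      _ = Y ^ 4 := by rw [hY, pow_mul]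
  have hY5 : (X : ℝ) ^ (1 / 5 : ℝ) ≤ 2 ^ (e i0) := by
    rw [← hY]
    calc (X : ℝ) ^ (1 / 5 : ℝ) ≤ (Y ^ 4) ^ (1 / 5 : ℝ) := by
          apply Real.rpow_le_rpow hXp.le hY4 (by norm_num)
      _ = Y ^ (4 / 5 : ℝ) := by
          rw [← Real.rpow_natCast, ← Real.rpow_mul hY0.le]
          norm_num
      _ ≤ Y ^ (1 : ℝ) := Real.rpow_le_rpow_of_exponent_le hY1 (by norm_num)
      _ = Y := Real.rpow_one _
  have hYX : 2 ^ (e i0) ≤ X ^ 2 := by
    have ha : e i0 ≤ ∑ i, e i := Finset.single_le_sum (fun i _ => Nat.zero_le _) (mem_univ i0)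
    calc 2 ^ (e i0) ≤ 2 ^ (∑ i, e i) := Nat.pow_le_pow_right (by norm_num) ha
      _ ≤ 64 * X := hs2
      _ ≤ X * X := by gcongr
      _ = X ^ 2 := by ring
  have hYX' : (2 : ℝ) ^ (e i0) ≤ (X : ℝ) ^ 2 := by exact_mod_cast hYX
  set a : ℝ := L ^ B1 / 2 with ha
  set T : ℝ := 2 * √X * L ^ D with hT
  have ha0 : 0 < a := by positivity
  have hT1 : 1 ≤ T := by
    have : (1 : ℝ) ≤ L ^ D := one_le_pow₀ hL1
    rw [hT]
    nlinarith
  have hT0 : 0 ≤ T := by linarith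
  have hTXX : T ≤ X := hTX
  have hTT : T * T = 4 * X * L ^ (2 * D) := by
    rw [hT, two_mul D, pow_add]
    calc _ = 4 * (√X * √X) * (L ^ D * L ^ D) := by ring
      _ = _ := by rw [hsq]
  have haB1' : L ^ B1' ≤ a := by
    rw [ha, le_div_iff₀ (by norm_num)]
    calc L ^ B1' * 2 ≤ L ^ B1' * L := by gcongr; linarith
      _ = L ^ (B1' + 1) := by rw [pow_succ]
      _ ≤ L ^ B1 := pow_le_pow_right₀ hL1 (by omega)
  have ha1 : 1 ≤ a := (one_le_pow₀ hL1).trans haB1'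
  have hM := tup_mean hC χ e i0 X (by omega) L T hT1 hL1 hsum hLC (by exact_mod_cast hs1)
  rw [← hY] at hM
  change ∫ t in tupR a T, ‖PP χ e t‖ ^ 2 ≤ 1 / L ^ A
  have hLD : (1 : ℝ) ≤ L ^ D := one_le_pow₀ hL1
  by_cases hi : i0 = 0 ∨ i0 = 1
  · -- Moebius blocks
    have hcf : tupCf χ i0 = cmu χ := by
      rcases hi with rfl | rfl <;> rfl
    have hY2 : Y ≤ 4 * √X := by
      rcases hi with rfl | rfl
      · exact he0
      · exact he1
    have hδ : ∀ t, a ≤ |t| → |t| ≤ T → ‖AA (tupCf χ i0) (e i0) t‖ ≤ 1 / L ^ A1 := by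
      intro t ht1 ht2
      rw [hcf]
      exact h1 X (by omega) q χ (e i0) t hq hY5 hYX (haB1'.trans ht1) (ht2.trans hTXX)
    have hb := tup_sup χ e i0 a T _ _ hT0 hδ hM
    refine hb.trans ?_
    have hTY : T * Y / X + 1 ≤ L ^ (D + 1) := by
      have h5 : T * Y / X ≤ 8 * L ^ D := by
        rw [div_le_iff₀ hXp]
        calc T * Y ≤ T * (4 * √X) := by gcongr
          _ = 8 * L ^ D * (√X * √X) := by rw [hT]; ring
          _ = 8 * L ^ D * X := by rw [hsq]
      calc T * Y / X + 1 ≤ 8 * L ^ D + L ^ D := by gcongr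
        _ = L ^ D * 9 := by ring
        _ ≤ L ^ D * L := by gcongr
        _ = L ^ (D + 1) := by rw [pow_succ]
    calc (1 / L ^ A1) ^ 2 * (L ^ (17 + 2 * C) * (T * Y / X + 1))
        ≤ (1 / L ^ A1) ^ 2 * (L ^ (17 + 2 * C) * L ^ (D + 1)) := by gcongr
      _ = L ^ (17 + 2 * C + (D + 1)) / L ^ (A1 * 2) := by
          rw [div_pow, one_pow, ← pow_mul, ← pow_add]
          ring
      _ ≤ 1 / L ^ A := tup_pow hL1 (by omega)
  · -- smooth blocks
    have hi23 : i0 = 2 ∨ i0 = 3 := by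
      have hdec : ∀ j : Fin 4, ¬ (j = 0 ∨ j = 1) → j = 2 ∨ j = 3 := by decide
      exact hdec i0 hi
    by_cases hYD : Y ≤ √X * L ^ D'
    · have hδ : ∀ t, a ≤ |t| → |t| ≤ T → ‖AA (tupCf χ i0) (e i0) t‖ ≤ L ^ (2 * B + 3) / L ^ B1 := by
        intro t ht1 ht2
        have h5 := h2 X (by omega) q χ (e i0) t hY5 hYX (ha1.trans ht1) (ht2.trans hTXX)
        have ht0 : 0 < |t| := lt_of_lt_of_le ha0 ht1
        have h6 : 1 / |t| + (X : ℝ) ^ (-c) ≤ L / L ^ B1 := by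
          have h7 : 1 / |t| ≤ 1 / a := one_div_le_one_div_of_le ha0 ht1
          have h8 : 1 / a = 2 / L ^ B1 := by rw [ha]; field_simp
          calc 1 / |t| + (X : ℝ) ^ (-c) ≤ 2 / L ^ B1 + 1 / L ^ B1 := by
                rw [← h8]
                gcongr
            _ = 3 / L ^ B1 := by ring
            _ ≤ L / L ^ B1 := by gcongr; linarith
        have h0 : 0 ≤ 1 / |t| + (X : ℝ) ^ (-c) := by positivity
        have h9 : C2 * q ^ 2 * L * (1 / |t| + (X : ℝ) ^ (-c)) ≤ L ^ (2 * B + 3) / L ^ B1 := by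
          calc C2 * q ^ 2 * L * (1 / |t| + (X : ℝ) ^ (-c))
              ≤ L * (L ^ B) ^ 2 * L * (L / L ^ B1) := by gcongr
            _ = L ^ (2 * B + 3) / L ^ B1 := by ring
        rcases hi23 with rfl | rfl
        · exact h5.2.trans h9
        · refine h5.1.trans (le_trans ?_ h9)
          calc C2 * q ^ 2 * (1 / |t| + (X : ℝ) ^ (-c))
              = C2 * q ^ 2 * 1 * (1 / |t| + (X : ℝ) ^ (-c)) := by ring
            _ ≤ C2 * q ^ 2 * L * (1 / |t| + (X : ℝ) ^ (-c)) := by gcongr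
      have hb := tup_sup χ e i0 a T _ _ hT0 hδ hM
      refine hb.trans ?_
      have hTY : T * Y / X + 1 ≤ L ^ (D + D' + 1) := by
        have h5 : T * Y / X ≤ 2 * L ^ (D + D') := by
          rw [div_le_iff₀ hXp]
          calc T * Y ≤ T * (√X * L ^ D') := by gcongr
            _ = 2 * (L ^ D * L ^ D') * (√X * √X) := by rw [hT]; ring
            _ = 2 * L ^ (D + D') * X := by rw [hsq, pow_add]
        have h6 : (1 : ℝ) ≤ L ^ (D + D') := one_le_pow₀ hL1
        calc T * Y / X + 1 ≤ 2 * L ^ (D + D') + L ^ (D + D') := by gcongr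
          _ = L ^ (D + D') * 3 := by ring
          _ ≤ L ^ (D + D') * L := by gcongr; linarith
          _ = L ^ (D + D' + 1) := by rw [pow_succ]
      calc (L ^ (2 * B + 3) / L ^ B1) ^ 2 * (L ^ (17 + 2 * C) * (T * Y / X + 1))
          ≤ (L ^ (2 * B + 3) / L ^ B1) ^ 2 * (L ^ (17 + 2 * C) * L ^ (D + D' + 1)) := by gcongr
        _ = L ^ ((2 * B + 3) * 2 + (17 + 2 * C) + (D + D' + 1)) / L ^ (B1 * 2) := by
            rw [div_pow, ← pow_mul, ← pow_mul, pow_add, pow_add]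
            ring
        _ ≤ 1 / L ^ A := tup_pow hL1 (by omega)
    · rw [not_le] at hYD
      have hQ : ∀ t, a ≤ |t| → |t| ≤ T →
          ‖AA (tupCf χ i0) (e i0) t‖ ≤ L ^ (B + 3) * (1 / |t| + |t| / Y) := by
        intro t ht1 ht2
        have ht0 : 0 < |t| := lt_of_lt_of_le ha0 ht1
        have h5 := h3 q χ (e i0) t (ha1.trans ht1)
        rw [← hY] at h5
        have h9 : C3 * q * (1 + e i0) * (1 / |t| + |t| / Y) ≤
            L ^ (B + 3) * (1 / |t| + |t| / Y) := by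
          calc C3 * q * (1 + e i0) * (1 / |t| + |t| / Y)
              ≤ L * L ^ B * L ^ 2 * (1 / |t| + |t| / Y) := by
                gcongr
                exact hei i0
            _ = L ^ (B + 3) * (1 / |t| + |t| / Y) := by ring
        rcases hi23 with rfl | rfl
        · exact h5.2.trans h9
        · refine h5.1.trans (le_trans ?_ h9)
          calc C3 * q * (1 / |t| + |t| / Y) = C3 * q * 1 * (1 / |t| + |t| / Y) := by ring
            _ ≤ C3 * q * (1 + e 3) * (1 / |t| + |t| / Y) := by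
                gcongr
                have : (0 : ℝ) ≤ e 3 := Nat.cast_nonneg _
                linarith
      have hW : ∀ t, ∏ i ∈ univ.erase i0, ‖AA (tupCf χ i) (e i) t‖ ^ 2 ≤ L ^ 4 := by
        intro t
        have hb : ∀ i : Fin 4, ‖AA (tupCf χ i) (e i) t‖ ^ 2 ≤ if i = 2 then L ^ 4 else 1 := by
          intro i
          fin_cases i
          · have := (hSu0 q χ (e 0) t).1
            simpa [tupCf] using pow_le_one₀ (n := 2) (norm_nonneg _) this
          · have := (hSu0 q χ (e 1) t).1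
            simpa [tupCf] using pow_le_one₀ (n := 2) (norm_nonneg _) this
          · have h5 := ((hSu0 q χ (e 2) t).2.2).trans (hei 2)
            have h6 := pow_le_pow_left₀ (norm_nonneg _) h5 2
            rw [← pow_mul] at h6
            simpa [tupCf] using h6
          · have := (hSu0 q χ (e 3) t).2.1
            simpa [tupCf] using pow_le_one₀ (n := 2) (norm_nonneg _) this
        have h4 : (1 : ℝ) ≤ L ^ 4 := one_le_pow₀ hL1
        have hb1 : ∀ i : Fin 4, (1 : ℝ) ≤ if i = 2 then L ^ 4 else 1 := by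
          intro i
          split_ifs
          · exact h4
          · exact le_refl _
        have hp : ∏ i : Fin 4, (if i = 2 then L ^ 4 else (1 : ℝ)) = L ^ 4 := by
          simp
        calc ∏ i ∈ univ.erase i0, ‖AA (tupCf χ i) (e i) t‖ ^ 2
            ≤ ∏ i ∈ univ.erase i0, (if i = 2 then L ^ 4 else (1 : ℝ)) :=
              Finset.prod_le_prod (fun i _ => by positivity) (fun i _ => hb i)
          _ ≤ (if i0 = 2 then L ^ 4 else (1 : ℝ)) *
              ∏ i ∈ univ.erase i0, (if i = 2 then L ^ 4 else (1 : ℝ)) := by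
              have h0 : 0 ≤ ∏ i ∈ univ.erase i0, (if i = 2 then L ^ 4 else (1 : ℝ)) :=
                Finset.prod_nonneg (fun i _ => by linarith [hb1 i])
              have := hb1 i0
              nlinarith
          _ = L ^ 4 := by
              rw [Finset.mul_prod_erase univ (fun i : Fin 4 => if i = 2 then L ^ 4 else (1 : ℝ))
                (mem_univ i0), hp]
      have hb := tup_long χ e i0 a T (L ^ (B + 3)) Y (L ^ 4) _ ha0 hT0 (by positivity) hY0
        (by positivity) hQ hW hM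
      refine hb.trans ?_
      have hTY : T / Y ≤ 2 * L ^ D / L ^ D' := by
        rw [div_le_div_iff₀ hY0 (by positivity)]
        calc T * L ^ D' = 2 * L ^ D * (√X * L ^ D') := by rw [hT]; ring
          _ ≤ 2 * L ^ D * Y := by gcongr
      have hTY1 : T / Y ≤ 2 * L ^ D := by
        refine hTY.trans ?_
        apply div_le_self (by positivity) (one_le_pow₀ hL1)
      have hmain : (T / Y) ^ 2 * (T * Y / X + 1) ≤ L ^ (3 * D + 2) / L ^ D' := by
        have h5 : (T / Y) ^ 2 * (T * Y / X) = (T / Y) * (4 * L ^ (2 * D)) := by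
          have : (T / Y) ^ 2 * (T * Y / X) = (T / Y) * (T * T / X) := by
            field_simp
          rw [this, hTT]
          field_simp
        have hTYn : 0 ≤ T / Y := by positivity
        have hLD2 : L ^ D ≤ L ^ (2 * D) := pow_le_pow_right₀ hL1 (by omega)
        calc (T / Y) ^ 2 * (T * Y / X + 1) = (T / Y) ^ 2 * (T * Y / X) + (T / Y) * (T / Y) := by ring
          _ ≤ (T / Y) * (4 * L ^ (2 * D)) + (T / Y) * (2 * L ^ (2 * D)) := by
              rw [h5]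
              gcongr
              exact hTY1.trans (by linarith)
          _ = (T / Y) * (6 * L ^ (2 * D)) := by ring
          _ ≤ (2 * L ^ D / L ^ D') * (6 * L ^ (2 * D)) := by gcongr
          _ = 12 * L ^ (3 * D) / L ^ D' := by ring
          _ ≤ L ^ 2 * L ^ (3 * D) / L ^ D' := by
              gcongr
              nlinarith
          _ = L ^ (3 * D + 2) / L ^ D' := by rw [← pow_add, add_comm 2]
      have hA1 : 2 * (L ^ (B + 3)) ^ 2 * L ^ 4 * (8 / a) ≤ 1 / L ^ A / 2 := by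
        have h5 : 2 * (L ^ (B + 3)) ^ 2 * L ^ 4 * (8 / a) = 32 * L ^ (2 * B + 10) / L ^ B1 := by
          rw [ha]
          have : (8 : ℝ) / (L ^ B1 / 2) = 16 / L ^ B1 := by field_simp; norm_num
          rw [this]
          ring
        rw [h5]
        calc 32 * L ^ (2 * B + 10) / L ^ B1 ≤ L ^ 2 * L ^ (2 * B + 10) / L ^ B1 := by
              gcongr
              nlinarith
          _ = L ^ (2 * B + 12) / L ^ B1 := by rw [← pow_add]; ring_nf
          _ ≤ 1 / L ^ A / 2 := tup_half (by linarith) (by omega)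
      have hA2 : 2 * (L ^ (B + 3)) ^ 2 * (T / Y) ^ 2 * (L ^ (17 + 2 * C) * (T * Y / X + 1)) ≤
          1 / L ^ A / 2 := by
        calc 2 * (L ^ (B + 3)) ^ 2 * (T / Y) ^ 2 * (L ^ (17 + 2 * C) * (T * Y / X + 1))
            = 2 * L ^ (2 * B + 6) * L ^ (17 + 2 * C) * ((T / Y) ^ 2 * (T * Y / X + 1)) := by ring
          _ ≤ L * L ^ (2 * B + 6) * L ^ (17 + 2 * C) * (L ^ (3 * D + 2) / L ^ D') := by
              gcongr
              linarith
          _ = L ^ (1 + (2 * B + 6) + (17 + 2 * C) + (3 * D + 2)) / L ^ D' := by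
              rw [pow_add L (1 + (2 * B + 6) + (17 + 2 * C)), pow_add L (1 + (2 * B + 6)),
                pow_add L 1, pow_one, mul_div_assoc]
          _ ≤ 1 / L ^ A / 2 := tup_half (by linarith) (by omega)
      linarith

end Pool.Agent.Helper42.GK
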